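import Pool.Agent.P.MP_9682d1_al.Main
import Pool.Agent.P.MP_9682d1_al.G.Top
import Pool.Agent.P.MP_9682d1_al.I.Inv
import Pool.Agent.P.MP_9682d1_al.E22.Main

set_option autoImplicit false

namespace Pool.Agent.P.MP_9682d1_al.Fin

open Pool.Agent.P.MP_9682d1_al.C Pool.Agent.P.MP_9682d1_al.G

universe u

/-- the Baer radical is carried into the Baer radical by a surjective homomorphism -/
theorem map_baer {G : Type*} {Q : Type*} [Group G] [Group Q] {f : G →* Q}
    (hf : Function.Surjective f) {a : G}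
    (h : a ∈ sSup {H : Subgroup G | IsCyclic H ∧ H.IsSubnormal}) :
    f a ∈ sSup {H : Subgroup Q | IsCyclic H ∧ H.IsSubnormal} := by
  have k : sSup {H : Subgroup G | IsCyclic H ∧ H.IsSubnormal} ≤
      (sSup {H : Subgroup Q | IsCyclic H ∧ H.IsSubnormal}).comap f := by
    refine sSup_le fun H hH => Subgroup.map_le_iff_le_comap.1 (le_sSup ⟨?_, hH.2.map hf⟩)
    have := hH.1
    exact isCyclic_of_surjective (f.subgroupMap H) (f.subgroupMap_surjective H)
  exact k h

/-- the example, in any universe -/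
theorem five : ∃ (G : Type u) (_ : Group G) (a : G),
    (∀ x : G, (fun c : G => c⁻¹ * (x⁻¹ * c * x))^[5] a = 1) ∧
      a ∉ sSup {H : Subgroup G | IsCyclic H ∧ H.IsSubnormal} := by
  obtain ⟨G, _, a, h1, h2⟩ := Pool.Agent.P.MP_9682d1_al.main
  let e : ULift.{u} G ≃* G := MulEquiv.ulift
  have h3 : RE 5 a := h1
  refine ⟨ULift.{u} G, inferInstance, e.symm.toMonoidHom a, h3.map e.symm.surjective, fun h => h2 ?_⟩
  simpa using map_baer (f := e.toMonoidHom) e.surjective h

theorem baer_four (S5 : Sp.{u} 5) (SG : Sgen.{u}) {G : Type u} [Group G] {a : G} (ha : RE 4 a) :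
    a ∈ sSup {H : Subgroup G | IsCyclic H ∧ H.IsSubnormal} :=
  E22.baer ha (mem_HP_iff.1 (hp_four (fun _ _ _ h h2 => I.mem_HP_two h h2) S5 SG G a ha))

theorem least (S5 : Sp.{u} 5) (SG : Sgen.{u}) :
    IsLeast {m : ℕ | 0 < m ∧ ∃ (G : Type u) (_ : Group G) (a : G),
      (∀ x : G, (fun c : G => c⁻¹ * (x⁻¹ * c * x))^[m] a = 1) ∧
        a ∉ sSup {H : Subgroup G | IsCyclic H ∧ H.IsSubnormal}} 5 := by
  refine ⟨⟨by norm_num, five⟩, ?_⟩
  rintro m ⟨-, G, _, a, ha, hB⟩
  by_contra hm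
  exact hB (baer_four S5 SG (RE.mono ha (by omega)))

end Pool.Agent.P.MP_9682d1_al.Fin
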